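import Pool.Agent.ZPK.StmtsF

/-!
Squad ZPK (MP_6e1a06_nt), row BIG: for large `p` all the data of a branch are good.
-/

set_option autoImplicit false

namespace Pool.Agent.ZPK.H66

open Polynomial Pool.Agent.ZPT Pool.Agent.ZP3

noncomputable section

/-- Elements of a ring generated by integral elements are integral. -/
lemma norm_clos {K : Type} [NormedField K] [IsUltrametricDist K] (ι : Qb →+* K) (S : Set Qb)
    (hS : ∀ s ∈ S, ‖ι s‖ ≤ 1) (x : Qb) (hx : x ∈ Subring.closure S) : ‖ι x‖ ≤ 1 := by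
  induction hx using Subring.closure_induction with
  | mem x hx => exact hS x hx
  | zero => simp
  | one => simp
  | add x y _ _ hx hy =>
    rw [map_add]
    exact (IsUltrametricDist.norm_add_le_max _ _).trans (max_le hx hy)
  | neg x _ hx => rw [map_neg, norm_neg]; exact hx
  | mul x y _ _ hx hy =>
    rw [map_mul, norm_mul]
    exact mul_le_one₀ hx (norm_nonneg _) hy

/-- The first difference of two series with the same constant coefficient. -/
lemma first_diff (F G : PowerSeries Qb) (h0 : PowerSeries.coeff 0 F = PowerSeries.coeff 0 G)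
    (hne : F ≠ G) :
    ∃ m, 1 ≤ m ∧ (∀ r, r < m → PowerSeries.coeff r F = PowerSeries.coeff r G) ∧
      PowerSeries.coeff m F ≠ PowerSeries.coeff m G := by
  classical
  have hex : ∃ m, PowerSeries.coeff m F ≠ PowerSeries.coeff m G := by
    by_contra h
    push Not at h
    exact hne (PowerSeries.ext h)
  refine ⟨Nat.find hex, ?_, ?_, Nat.find_spec hex⟩
  · rcases Nat.eq_zero_or_pos (Nat.find hex) with h | h
    · have h2 := Nat.find_spec hex
      rw [h] at h2
      exact absurd h0 h2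
    · exact h
  · intro r hr
    exact not_not.mp (Nat.find_min hex hr)

/-- The normalised series over the algebraic numbers. -/
def Nn (f : PowerSeries Qb) : PowerSeries Qb :=
  PowerSeries.mk fun r => PowerSeries.coeff r f / PowerSeries.coeff 0 f

lemma Nn_zero {f : PowerSeries Qb} (h : PowerSeries.constantCoeff f ≠ 0) :
    PowerSeries.coeff 0 (Nn f) = 1 := by
  rw [Nn, PowerSeries.coeff_mk]
  exact div_self (by rw [PowerSeries.coeff_zero_eq_constantCoeff_apply]; exact h)

lemma Nn_pow_zero {f : PowerSeries Qb} (h : PowerSeries.constantCoeff f ≠ 0) (k : ℕ) :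
    PowerSeries.coeff 0 (Nn f ^ k) = 1 := by
  have h1 := Nn_zero h
  rw [PowerSeries.coeff_zero_eq_constantCoeff_apply] at h1 ⊢
  rw [map_pow, h1, one_pow]

lemma Nn_map {K : Type} [NormedField K] (ι : Qb →+* K) {n : ℕ} (f : Fin n → PowerSeries Qb)
    (i : Fin n) : Pn (fun i => cf ι (f i)) i = PowerSeries.map ι (Nn (f i)) := by
  ext r
  simp only [Pn, cf, Nn, PowerSeries.coeff_mk, PowerSeries.coeff_map, map_div₀]

lemma Nn_coeff {K : Type} [NormedField K] (ι : Qb →+* K) {n : ℕ} (f : Fin n → PowerSeries Qb)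
    (i : Fin n) (k r : ℕ) : PowerSeries.coeff r (Pn (fun i => cf ι (f i)) i ^ k) =
      ι (PowerSeries.coeff r (Nn (f i) ^ k)) := by
  rw [Nn_map, ← map_pow, PowerSeries.coeff_map]

theorem big (ura : URAStmt) (_urr : URRStmt) : BigStmt := by
  classical
  intro n b e f hbr
  choose S hS using hbr.fg
  have hD : ∀ i k : Fin n, ∃ m : ℕ, 1 ≤ e i → 1 ≤ e k → Nn (f i) ^ e k = Nn (f k) ^ e i ∨
      (1 ≤ m ∧ (∀ r, r < m → PowerSeries.coeff r (Nn (f i) ^ e k) =
        PowerSeries.coeff r (Nn (f k) ^ e i)) ∧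
        PowerSeries.coeff m (Nn (f i) ^ e k) ≠ PowerSeries.coeff m (Nn (f k) ^ e i)) := by
    intro i k
    by_cases hik : 1 ≤ e i ∧ 1 ≤ e k
    · by_cases hFG : Nn (f i) ^ e k = Nn (f k) ^ e i
      · exact ⟨0, fun _ _ => Or.inl hFG⟩
      · obtain ⟨m, h1, h2, h3⟩ := first_diff (Nn (f i) ^ e k) (Nn (f k) ^ e i)
          (by rw [Nn_pow_zero (hbr.f0 i hik.1), Nn_pow_zero (hbr.f0 k hik.2)]) hFG
        exact ⟨m, fun _ _ => Or.inr ⟨h1, h2, h3⟩⟩
    · exact ⟨0, fun h1 h2 => absurd ⟨h1, h2⟩ hik⟩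
  choose m hm using hD
  obtain ⟨E, hEe, hEm⟩ : ∃ E : ℕ, (∀ i, e i ≤ E) ∧ ∀ i k, m i k ≤ E := by
    refine ⟨(∑ i, e i) + ∑ i, ∑ k, m i k, ?_, ?_⟩
    · intro i
      have h1 := Finset.single_le_sum (f := e) (fun _ _ => Nat.zero_le _) (Finset.mem_univ i)
      omega
    · intro i k
      have h1 := Finset.single_le_sum (f := fun k => m i k) (fun _ _ => Nat.zero_le _)
        (Finset.mem_univ k)
      have h2 := Finset.single_le_sum (f := fun i => ∑ k, m i k) (fun _ _ => Nat.zero_le _)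
        (Finset.mem_univ i)
      omega
  let T1 : Finset Qb := Finset.univ.biUnion S
  let T2 : Finset Qb := Finset.univ.biUnion fun i =>
    (Finset.range (E + 1)).image fun r => PowerSeries.coeff r (f i)
  let T3 : Finset Qb := Finset.univ.biUnion fun i => Finset.univ.image fun k =>
    PowerSeries.coeff (m i k) (Nn (f i) ^ e k) - PowerSeries.coeff (m i k) (Nn (f k) ^ e i)
  obtain ⟨p₀, hp₀⟩ := ura (T1 ∪ T2 ∪ T3)
  refine ⟨E, max p₀ (1000 * (E + 1) ^ 2 + 1), ?_⟩
  intro p hp hpp K _ _ _ hExt ι L _hL hιL g hg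
  have hT := hp₀ p hp ((le_max_left _ _).trans hpp) K hExt ι
  have h1 : ∀ i r, ‖ι (PowerSeries.coeff r (f i))‖ ≤ 1 := by
    intro i r
    refine norm_clos ι (S i) (fun s hs => ?_) _ (hS i r)
    refine (hT s ?_).1.1
    refine Finset.mem_union_left _ (Finset.mem_union_left _ ?_)
    exact Finset.mem_biUnion.mpr ⟨i, Finset.mem_univ i, hs⟩
  have h2 : ∀ i r, r ≤ E → PowerSeries.coeff r (f i) ≠ 0 → ‖ι (PowerSeries.coeff r (f i))‖ = 1 := by
    intro i r hr h0
    refine (hT _ ?_).2 h0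
    refine Finset.mem_union_left _ (Finset.mem_union_right _ ?_)
    refine Finset.mem_biUnion.mpr ⟨i, Finset.mem_univ i, ?_⟩
    exact Finset.mem_image.mpr ⟨r, Finset.mem_range.mpr (by omega), rfl⟩
  have h3 : ∀ i k, PowerSeries.coeff (m i k) (Nn (f i) ^ e k) ≠
      PowerSeries.coeff (m i k) (Nn (f k) ^ e i) →
      ‖ι (PowerSeries.coeff (m i k) (Nn (f i) ^ e k) -
        PowerSeries.coeff (m i k) (Nn (f k) ^ e i))‖ = 1 := by
    intro i k h0
    refine (hT _ ?_).2 (sub_ne_zero.mpr h0)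
    refine Finset.mem_union_right _ ?_
    refine Finset.mem_biUnion.mpr ⟨i, Finset.mem_univ i, ?_⟩
    exact Finset.mem_image.mpr ⟨k, Finset.mem_univ k, rfl⟩
  refine ⟨?_, ?_, ?_, ?_, hbr.eb, ?_, ?_⟩
  · intro i
    refine ⟨fun r => hιL i r, fun r => h1 i r, fun hi => ?_, (hg i).1, (hg i).2⟩
    refine h2 i 0 (Nat.zero_le _) ?_
    rw [PowerSeries.coeff_zero_eq_constantCoeff_apply]
    exact hbr.f0 i hi
  · refine ⟨hEe, fun i r hr => ?_⟩
    by_cases h0 : PowerSeries.coeff r (f i) = 0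
    · left
      change ι (PowerSeries.coeff r (f i)) = 0
      rw [h0, map_zero]
    · right
      exact h2 i r hr h0
  · intro i k hi hk
    rcases hm i k hi hk with h | ⟨ha, hb, hc⟩
    · left
      rw [Nn_map, Nn_map, ← map_pow, ← map_pow, h]
    · right
      refine ⟨m i k, ha, hEm i k, fun r hr => ?_, ?_⟩
      · rw [Nn_coeff, Nn_coeff, hb r hr]
      · rw [Nn_coeff, Nn_coeff, ← map_sub]
        exact h3 i k hc
  · have h4 := (le_max_right p₀ (1000 * (E + 1) ^ 2 + 1)).trans hpp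
    omega
  · change ι (PowerSeries.coeff 0 (f b)) = 1
    rw [hbr.fb, PowerSeries.coeff_zero_one, map_one]
  · intro r hr
    change ι (PowerSeries.coeff r (f b)) = 0
    rw [hbr.fb, PowerSeries.coeff_one, if_neg (by omega), map_zero]

end

end Pool.Agent.ZPK.H66
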