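import Pool.Agent.ZPK.StmtsL

/-!
Squad ZPK, row LOG: the `p`-adic logarithm exists.
-/

set_option autoImplicit false
set_option linter.unusedSectionVars false

namespace Pool.Agent.ZPK.H66

open Filter Topology Pool.Agent.ZPT Pool.Agent.ZP3 Pool.Agent.ZPK

/-! ### norms of integers -/

section basic

variable {p : ℕ} {K : Type} [NormedField K] [CharZero K]

theorem norm_nat (hK : Ext p K) (k : ℕ) : ‖(k : K)‖ = ((padicNorm p (k : ℚ) : ℚ) : ℝ) := by
  have h := hK (k : ℚ)
  rw [← h]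
  norm_cast

theorem norm_nat_le (hp : p.Prime) (hK : Ext p K) (k : ℕ) : ‖(k : K)‖ ≤ 1 := by
  haveI := Fact.mk hp
  rw [norm_nat hK]
  exact_mod_cast padicNorm.of_nat k

theorem norm_nat_inv_le (hp : p.Prime) (hK : Ext p K) (k : ℕ) (hk : k ≠ 0) :
    ‖(k : K)‖⁻¹ ≤ k := by
  haveI := Fact.mk hp
  rw [norm_nat hK]
  have hk' : (k : ℚ) ≠ 0 := by exact_mod_cast hk
  rw [padicNorm.eq_zpow_of_nonzero hk', padicValRat.of_nat]
  have h1 : (p : ℚ) ^ (padicValNat p k) ≤ (k : ℚ) := by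
    exact_mod_cast Nat.le_of_dvd (Nat.pos_of_ne_zero hk) pow_padicValNat_dvd
  have h2 : ((p : ℝ)) ^ (padicValNat p k) ≤ (k : ℝ) := by exact_mod_cast h1
  simpa using h2

theorem norm_p (hp : p.Prime) (hK : Ext p K) : ‖(p : K)‖ = (p : ℝ)⁻¹ := by
  haveI := Fact.mk hp
  rw [norm_nat hK, padicNorm.padicNorm_p_of_prime]
  push_cast
  rfl

theorem p_ne (hp : p.Prime) : (p : K) ≠ 0 := by
  exact_mod_cast hp.ne_zero

theorem tendsto_p (hp : p.Prime) (hK : Ext p K) :
    Tendsto (fun s : ℕ => (p : K) ^ s) atTop (𝓝 0) := by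
  apply tendsto_pow_atTop_nhds_zero_of_norm_lt_one
  rw [norm_p hp hK]
  have : (1 : ℝ) < p := by exact_mod_cast hp.one_lt
  exact inv_lt_one_of_one_lt₀ this

end basic

/-! ### the logarithm near `1` -/

section haslog

variable {p : ℕ} {K : Type} [NormedField K]

/-- `l` is the `p`-adic logarithm of `u`, as a limit. -/
def HL (p : ℕ) (u l : K) : Prop :=
  Tendsto (fun s : ℕ => (u ^ (p ^ s) - 1) / (p : K) ^ s) atTop (𝓝 l)

theorem HL.unique {u l l' : K} (h : HL p u l) (h' : HL p u l') : l = l' :=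
  tendsto_nhds_unique h h'

theorem hl_one : HL p (1 : K) 0 := by
  unfold HL
  simp

variable [CharZero K]

theorem HL.tendsto_pow (hp : p.Prime) (hK : Ext p K) {u l : K} (h : HL p u l) :
    Tendsto (fun s : ℕ => u ^ (p ^ s)) atTop (𝓝 1) := by
  have h1 := (Filter.Tendsto.mul h (tendsto_p hp hK)).add_const 1
  have h2 : (fun s : ℕ => (u ^ (p ^ s) - 1) / (p : K) ^ s * (p : K) ^ s + 1) =
      fun s : ℕ => u ^ (p ^ s) := by
    funext s
    rw [div_mul_cancel₀ _ (pow_ne_zero _ (p_ne hp))]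
    ring
  rw [h2] at h1
  simpa using h1

theorem HL.mul (hp : p.Prime) (hK : Ext p K) {u v a b : K} (hu : HL p u a) (hv : HL p v b) :
    HL p (u * v) (a + b) := by
  have h1 := Filter.Tendsto.add hu ((hu.tendsto_pow hp hK).mul hv)
  rw [one_mul] at h1
  refine Filter.Tendsto.congr (fun s => ?_) h1
  rw [mul_pow]
  ring

theorem HL.ne_zero (hp : p.Prime) (hK : Ext p K) {u a : K} (hu : HL p u a) : u ≠ 0 := by
  rintro rfl
  have h1 := hu.tendsto_pow hp hK
  have h2 : (fun s : ℕ => (0 : K) ^ (p ^ s)) = fun _ => 0 := by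
    funext s
    exact zero_pow (pow_ne_zero _ hp.ne_zero)
  rw [h2] at h1
  exact zero_ne_one (tendsto_nhds_unique tendsto_const_nhds h1)

theorem HL.inv (hp : p.Prime) (hK : Ext p K) {u a : K} (hu : HL p u a) : HL p u⁻¹ (-a) := by
  have h0 := hu.ne_zero hp hK
  have h1 := ((hu.tendsto_pow hp hK).inv₀ one_ne_zero).mul (Filter.Tendsto.neg hu)
  rw [inv_one, one_mul] at h1
  refine Filter.Tendsto.congr (fun s => ?_) h1
  have h2 : u ^ (p ^ s) ≠ 0 := pow_ne_zero _ h0
  rw [inv_pow]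
  field_simp
  ring

theorem choose_div (hp : p.Prime) (s k : ℕ) :
    ((p ^ s).choose (k + 1) : K) / (p : K) ^ s =
      (((p ^ s - 1).choose k : ℕ) : K) / ((k + 1 : ℕ) : K) := by
  have hpos : 0 < p ^ s := pow_pos hp.pos _
  obtain ⟨q, hq⟩ : ∃ q, p ^ s = q + 1 := ⟨p ^ s - 1, by omega⟩
  have h := Nat.add_one_mul_choose_eq q k
  have hq' : (p : K) ^ s = ((q + 1 : ℕ) : K) := by
    rw [← hq]; push_cast; ring
  rw [hq', hq]
  have h1 : ((q + 1 : ℕ) : K) ≠ 0 := by exact_mod_cast Nat.succ_ne_zero q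
  have h2 : ((k + 1 : ℕ) : K) ≠ 0 := by exact_mod_cast Nat.succ_ne_zero k
  rw [div_eq_div_iff h1 h2, Nat.add_sub_cancel]
  have h3 : (((q + 1) * q.choose k : ℕ) : K) = (((q + 1).choose (k + 1) * (k + 1) : ℕ) : K) := by
    rw [h]
  push_cast at h3 ⊢
  rw [← h3]
  ring

theorem expand_quot (hp : p.Prime) (x : K) (s : ℕ) :
    ((1 + x) ^ (p ^ s) - 1) / (p : K) ^ s =
      ∑ k ∈ Finset.range (p ^ s),
        (((p ^ s - 1).choose k : ℕ) : K) / ((k + 1 : ℕ) : K) * x ^ (k + 1) := by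
  have h : (1 + x) ^ (p ^ s) - 1 =
      ∑ k ∈ Finset.range (p ^ s), ((p ^ s).choose (k + 1) : K) * x ^ (k + 1) := by
    rw [add_comm 1 x, add_pow, Finset.sum_range_succ']
    simp [mul_comm]
  rw [h, Finset.sum_div]
  refine Finset.sum_congr rfl fun k _ => ?_
  rw [← choose_div hp s k]
  ring

theorem norm_coef_le (hp : p.Prime) (hK : Ext p K) (x : K) (s k : ℕ) :
    ‖(((p ^ s - 1).choose k : ℕ) : K) / ((k + 1 : ℕ) : K) * x ^ (k + 1)‖ ≤
      ((k + 1 : ℕ) : ℝ) * ‖x‖ ^ (k + 1) := by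
  rw [norm_mul, norm_div, norm_pow]
  refine mul_le_mul_of_nonneg_right ?_ (by positivity)
  rw [div_eq_mul_inv]
  calc _ ≤ 1 * ‖((k + 1 : ℕ) : K)‖⁻¹ := by
        exact mul_le_mul_of_nonneg_right (norm_nat_le hp hK _) (by positivity)
    _ ≤ _ := by rw [one_mul]; exact norm_nat_inv_le hp hK _ (Nat.succ_ne_zero k)

theorem summable_real_bound {r : ℝ} (h0 : 0 ≤ r) (h1 : r < 1) :
    Summable fun k : ℕ => ((k + 1 : ℕ) : ℝ) * r ^ (k + 1) := by
  have h := summable_pow_mul_geometric_of_norm_lt_one (R := ℝ) 1 (r := r)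
    (by rw [Real.norm_of_nonneg h0]; exact h1)
  have h' := (summable_nat_add_iff (f := fun k : ℕ => ((k : ℝ)) ^ 1 * r ^ k) 1).2 h
  refine h'.congr fun k => ?_
  simp

/-- `C(p^s - 1, k)` tends to `(-1)^k`. -/
theorem tendsto_choose (hp : p.Prime) (hK : Ext p K) (k : ℕ) :
    Tendsto (fun s : ℕ => (((p ^ s - 1).choose k : ℕ) : K)) atTop (𝓝 ((-1) ^ k)) := by
  have h2 : ∀ s : ℕ, (k.factorial : K) * (((p ^ s - 1).choose k : ℕ) : K) =
      ∏ i ∈ Finset.range k, ((p : K) ^ s - 1 - (i : K)) := by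
    intro s
    have hpos : 0 < p ^ s := pow_pos hp.pos _
    obtain ⟨q, hq⟩ : ∃ q, p ^ s = q + 1 := ⟨p ^ s - 1, by omega⟩
    have hq' : (p : K) ^ s = ((q : ℕ) : K) + 1 := by
      have : ((p ^ s : ℕ) : K) = ((q + 1 : ℕ) : K) := by rw [hq]
      push_cast at this
      exact this
    rw [hq', hq, Nat.add_sub_cancel]
    have h3 : (k.factorial * q.choose k : ℕ) = q.descFactorial k :=
      (Nat.descFactorial_eq_factorial_mul_choose q k).symm
    have h4 : (k.factorial : K) * ((q.choose k : ℕ) : K) = ((q.descFactorial k : ℕ) : K) := by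
      rw [← h3]; push_cast; ring
    rw [h4]
    have h5 : ∀ k : ℕ, ((q.descFactorial k : ℕ) : K) =
        ∏ i ∈ Finset.range k, ((q : K) - (i : K)) := by
      intro k
      induction k with
      | zero => simp
      | succ k ih =>
        rw [Nat.descFactorial_succ, Finset.prod_range_succ, ← ih]
        push_cast
        rcases le_or_gt k q with hkq | hkq
        · rw [Nat.cast_sub hkq]; ring
        · rw [Nat.descFactorial_of_lt hkq]; simp
    rw [h5]
    refine Finset.prod_congr rfl fun i _ => ?_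
    ring
  have h6 : Tendsto (fun s : ℕ => ∏ i ∈ Finset.range k, ((p : K) ^ s - 1 - (i : K))) atTop
      (𝓝 (∏ i ∈ Finset.range k, ((0 : K) - 1 - (i : K)))) := by
    refine tendsto_finsetProd _ fun i _ => ?_
    exact ((tendsto_p hp hK).sub_const 1).sub_const _
  have h7 : ∏ i ∈ Finset.range k, ((0 : K) - 1 - (i : K)) = (k.factorial : K) * (-1) ^ k := by
    clear h2 h6
    induction k with
    | zero => simp
    | succ k ih =>
      rw [Finset.prod_range_succ, ih, Nat.factorial_succ]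
      push_cast
      ring
  have hk : (k.factorial : K) ≠ 0 := by exact_mod_cast k.factorial_ne_zero
  have h8 : (fun s : ℕ => (((p ^ s - 1).choose k : ℕ) : K)) = fun s : ℕ =>
      (k.factorial : K)⁻¹ * ∏ i ∈ Finset.range k, ((p : K) ^ s - 1 - (i : K)) := by
    funext s
    rw [← h2 s]
    field_simp
  rw [h8]
  have h9 := h6.const_mul (k.factorial : K)⁻¹
  rw [h7] at h9
  have h10 : (k.factorial : K)⁻¹ * ((k.factorial : K) * (-1) ^ k) = (-1) ^ k := by
    rw [← mul_assoc, inv_mul_cancel₀ hk, one_mul]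
  rw [h10] at h9
  exact h9

variable [IsUltrametricDist K] [CompleteSpace K]

theorem summable_log (hp : p.Prime) (hK : Ext p K) {x : K} (hx : ‖x‖ < 1) :
    Summable fun k : ℕ => (-1 : K) ^ k * x ^ (k + 1) / ((k : K) + 1) := by
  refine Summable.of_norm_bounded (summable_real_bound (norm_nonneg x) hx) fun k => ?_
  rw [norm_div, norm_mul, norm_pow, norm_pow, norm_neg, norm_one, one_pow, one_mul, mul_comm,
    div_eq_mul_inv, mul_comm]
  rw [mul_comm (‖x‖ ^ (k + 1))]
  refine mul_le_mul_of_nonneg_right ?_ (by positivity)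
  have h := norm_nat_inv_le hp hK (k + 1) (Nat.succ_ne_zero k)
  push_cast at h ⊢
  exact h

/-- The logarithm of `1 + x` is given by the usual series. -/
theorem hl_one_add (hp : p.Prime) (hK : Ext p K) {x : K} (hx : ‖x‖ < 1) :
    HL p (1 + x) (∑' k : ℕ, (-1 : K) ^ k * x ^ (k + 1) / ((k : K) + 1)) := by
  unfold HL
  have key : Tendsto (fun s : ℕ => ∑' k : ℕ,
      (((p ^ s - 1).choose k : ℕ) : K) / ((k + 1 : ℕ) : K) * x ^ (k + 1)) atTop
      (𝓝 (∑' k : ℕ, (-1 : K) ^ k * x ^ (k + 1) / ((k : K) + 1))) := by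
    refine tendsto_tsum_of_dominated_convergence
      (summable_real_bound (norm_nonneg x) hx) (fun k => ?_) (Eventually.of_forall fun s k => ?_)
    · have h1 := ((tendsto_choose hp hK k).div_const ((k + 1 : ℕ) : K)).mul_const (x ^ (k + 1))
      have h2 : (-1 : K) ^ k / ((k + 1 : ℕ) : K) * x ^ (k + 1) =
          (-1 : K) ^ k * x ^ (k + 1) / ((k : K) + 1) := by
        push_cast
        ring
      rw [h2] at h1
      exact h1
    · exact norm_coef_le hp hK x s k
  refine key.congr fun s => ?_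
  rw [expand_quot hp x s]
  rw [tsum_eq_sum]
  intro k hk
  have hk' : p ^ s ≤ k := by simpa using hk
  have hpos : 0 < p ^ s := pow_pos hp.pos _
  rw [Nat.choose_eq_zero_of_lt (by omega : p ^ s - 1 < k)]
  simp

end haslog

/-! ### the extension -/

section ext

variable {p : ℕ} {K : Type} [NormedField K] [CharZero K] [IsUltrametricDist K] [CompleteSpace K]

/-- `x = p ^ n u` with a principal unit `u` of logarithm `l` -/
def PL (p : ℕ) (x l : K) : Prop := ∃ (n : ℤ) (u : K), ‖u - 1‖ < 1 ∧ x = (p : K) ^ n * u ∧ HL p u l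

theorem norm_pu {u : K} (hu : ‖u - 1‖ < 1) : ‖u‖ = 1 := by
  have h1 : ‖(1 : K)‖ = 1 := norm_one
  have h2 : ‖u - 1‖ < ‖(1 : K)‖ := by rwa [h1]
  have h3 := IsUltrametricDist.norm_add_eq_max_of_norm_ne_norm (ne_of_lt h2)
  rw [sub_add_cancel, max_eq_right h2.le, h1] at h3
  exact h3

theorem PL.unique (hp : p.Prime) (hK : Ext p K) {x l l' : K} (h : PL p x l) (h' : PL p x l') :
    l = l' := by
  obtain ⟨n, u, hu, hx, hl⟩ := h
  obtain ⟨n', u', hu', hx', hl'⟩ := h'
  have hn : n = n' := by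
    have h1 : ‖x‖ = (p : ℝ)⁻¹ ^ n := by
      rw [hx, norm_mul, norm_zpow, norm_p hp hK, norm_pu hu, mul_one]
    have h2 : ‖x‖ = (p : ℝ)⁻¹ ^ n' := by
      rw [hx', norm_mul, norm_zpow, norm_p hp hK, norm_pu hu', mul_one]
    have hp0 : (0 : ℝ) < (p : ℝ)⁻¹ := inv_pos.mpr (by exact_mod_cast hp.pos)
    have hp1 : (p : ℝ)⁻¹ ≠ 1 := by
      have : (1 : ℝ) < p := by exact_mod_cast hp.one_lt
      exact (inv_lt_one_of_one_lt₀ this).ne
    exact zpow_right_injective₀ hp0 hp1 (h1.symm.trans h2)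
  subst hn
  have hu2 : u = u' := mul_left_cancel₀ (zpow_ne_zero n (p_ne hp)) (hx.symm.trans hx')
  subst hu2
  exact hl.unique hl'

theorem PL.mul (hp : p.Prime) (hK : Ext p K) {x y l m : K} (h : PL p x l) (h' : PL p y m) :
    PL p (x * y) (l + m) := by
  obtain ⟨n, u, hu, hx, hl⟩ := h
  obtain ⟨n', u', hu', hx', hl'⟩ := h'
  refine ⟨n + n', u * u', ?_, ?_, hl.mul hp hK hl'⟩
  · have h1 : u * u' - 1 = (u - 1) * u' + (u' - 1) := by ring
    rw [h1]
    refine lt_of_le_of_lt (IsUltrametricDist.norm_add_le_max _ _) (max_lt ?_ hu')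
    rw [norm_mul, norm_pu hu', mul_one]
    exact hu
  · rw [zpow_add₀ (p_ne hp), hx, hx']
    ring

theorem PL.inv (hp : p.Prime) (hK : Ext p K) {x l : K} (h : PL p x l) : PL p x⁻¹ (-l) := by
  obtain ⟨n, u, hu, hx, hl⟩ := h
  have hu0 : u ≠ 0 := by
    intro h0
    have := norm_pu hu
    rw [h0, norm_zero] at this
    exact zero_ne_one this
  refine ⟨-n, u⁻¹, ?_, ?_, hl.inv hp hK⟩
  · have h1 : u⁻¹ - 1 = -(u - 1) * u⁻¹ := by
      field_simp
      ring
    rw [h1, norm_mul, norm_neg, norm_inv, norm_pu hu, inv_one, mul_one]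
    exact hu
  · rw [hx, mul_inv, zpow_neg]

theorem PL.one : PL p (1 : K) 0 := ⟨0, 1, by simp, by simp, hl_one⟩

/-- the subgroup -/
def HH (hp : p.Prime) (hK : Ext p K) : AddSubgroup (Additive Kˣ) where
  carrier := {x | ∃ l : K, PL p ((Additive.toMul x : Kˣ) : K) l}
  add_mem' := by
    rintro x y ⟨l, hl⟩ ⟨m, hm⟩
    exact ⟨l + m, by
      rw [toMul_add, Units.val_mul]
      exact hl.mul hp hK hm⟩
  zero_mem' := ⟨0, by
    rw [toMul_zero, Units.val_one]
    exact PL.one⟩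
  neg_mem' := by
    rintro x ⟨l, hl⟩
    exact ⟨-l, by
      rw [toMul_neg, Units.val_inv_eq_inv_val]
      exact hl.inv hp hK⟩

/-- the logarithm on the subgroup -/
noncomputable def lg (hp : p.Prime) (hK : Ext p K) : HH hp hK →+ K :=
  AddMonoidHom.mk' (fun x => x.2.choose) (by
    intro x y
    have h1 := (x + y).2.choose_spec
    have h2 := x.2.choose_spec
    have h3 := y.2.choose_spec
    have h4 := h2.mul hp hK h3
    refine h1.unique hp hK ?_
    have h5 : ((Additive.toMul ((x + y : HH hp hK) : Additive Kˣ) : Kˣ) : K) =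
        ((Additive.toMul (x : Additive Kˣ) : Kˣ) : K) *
          ((Additive.toMul (y : Additive Kˣ) : Kˣ) : K) := by
      rw [AddSubgroup.coe_add, toMul_add, Units.val_mul]
    rw [h5]
    exact h4)

theorem lg_eq (hp : p.Prime) (hK : Ext p K) (x : HH hp hK) {l : K}
    (h : PL p ((Additive.toMul (x : Additive Kˣ) : Kˣ) : K) l) : lg hp hK x = l :=
  x.2.choose_spec.unique hp hK h

theorem log : LogStmt := by
  intro p hp K _ _ _ _ hK
  haveI : DivisibleBy K ℤ := AddCommGroup.divisibleByIntOfSMulTopEqTop K (by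
    intro n hn
    rw [eq_top_iff]
    intro x _
    refine ⟨x / (n : K), AddSubgroup.mem_top _, ?_⟩
    have hn' : (n : K) ≠ 0 := by exact_mod_cast hn
    show n • (x / (n : K)) = x
    rw [zsmul_eq_mul]
    exact mul_div_cancel₀ _ hn')
  obtain ⟨f, hf⟩ := (Module.Baer.of_divisible K).extension_property_addMonoidHom
    (HH hp hK).subtype (AddSubgroup.subtype_injective _) (lg hp hK)
  have hfl : ∀ (x : Kˣ) (l : K), PL p (x : K) l → f (Additive.ofMul x) = l := by
    intro x l h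
    have h1 : Additive.ofMul x ∈ HH hp hK := ⟨l, h⟩
    have h2 := DFunLike.congr_fun hf ⟨Additive.ofMul x, h1⟩
    have h3 := lg_eq hp hK ⟨Additive.ofMul x, h1⟩ (l := l) h
    rw [← h3, ← h2]
    rfl
  classical
  refine ⟨fun x => if h : x = 0 then 0 else f (Additive.ofMul (Units.mk0 x h)), ?_, ?_, ?_⟩
  · intro x y hx hy
    have hxy : x * y ≠ 0 := mul_ne_zero hx hy
    rw [dif_neg hx, dif_neg hy, dif_neg hxy, ← map_add, ← ofMul_mul]
    congr 2
    exact Units.ext rfl
  · rw [dif_neg (p_ne hp)]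
    exact hfl _ 0 ⟨1, 1, by simp, by simp, hl_one⟩
  · intro x hx
    have h0 : (1 : K) + x ≠ 0 := by
      intro h
      have h1 : x = -1 := by
        rw [eq_neg_iff_add_eq_zero, add_comm]
        exact h
      rw [h1, norm_neg, norm_one] at hx
      exact lt_irrefl _ hx
    rw [dif_neg h0]
    rw [hfl (Units.mk0 (1 + x) h0) (∑' k : ℕ, (-1 : K) ^ k * x ^ (k + 1) / ((k : K) + 1))
      ⟨0, 1 + x, by rw [add_sub_cancel_left]; exact hx, by simp, hl_one_add hp hK hx⟩]
    exact (summable_log hp hK hx).hasSum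

end ext

end Pool.Agent.ZPK.H66
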