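import Pool.Agent.ZPK.StmtsA
import Pool.Agent.Helper66_ZPK.LOG

/-!
Squad ZPK, row DIS: isogenous coordinates are not both integral after the translation.
-/

set_option autoImplicit false

namespace Pool.Agent.ZPK.H66

open Pool.Agent.ZPT Pool.Agent.ZP3 Pool.Agent.ZPK

/-- one coordinate -/
private theorem one_coord {p : ℕ} (hp : p.Prime) {K : Type} [NormedField K] [CharZero K]
    [IsUltrametricDist K] (hK : Ext p K) {e : ℕ} {g y t : K} (hg : ‖g‖ = 1) (hy : ‖y‖ ≤ 1)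
    (hy1 : 1 ≤ e → ‖y‖ = 1) (ht : 0 < ‖t‖) (h : ‖y / t ^ e + g / p‖ ≤ 1) :
    1 ≤ e ∧ ‖t ^ e‖ = (p : ℝ)⁻¹ := by
  have hp1 : (1 : ℝ) < p := by exact_mod_cast hp.one_lt
  have hgp : ‖g / (p : K)‖ = p := by
    rw [norm_div, hg, norm_p hp hK, one_div, inv_inv]
  have hX : ‖y / t ^ e‖ = p := by
    by_contra hne
    have h1 : ‖y / t ^ e‖ ≠ ‖g / (p : K)‖ := by rw [hgp]; exact hne
    have h2 := IsUltrametricDist.norm_add_eq_max_of_norm_ne_norm h1
    have h3 : (p : ℝ) ≤ ‖y / t ^ e + g / p‖ := by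
      rw [h2, hgp]
      exact le_max_right _ _
    linarith
  have hte : 0 < ‖t ^ e‖ := by
    rw [norm_pow]
    exact pow_pos ht _
  rw [norm_div, div_eq_iff hte.ne'] at hX
  have he : 1 ≤ e := by
    by_contra h0
    have h0' : e = 0 := by omega
    rw [h0', pow_zero, norm_one, mul_one] at hX
    linarith
  refine ⟨he, ?_⟩
  rw [hy1 he] at hX
  rw [eq_comm, inv_eq_iff_eq_inv, eq_comm, inv_eq_iff_eq_inv]
  field_simp
  linarith

theorem dis : DisStmt := by
  intro p hp K _ _ _ hK n e A g y t i j hij hDi hg hy hy1 hyA ht0 ht1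
  by_contra hcon
  push Not at hcon
  obtain ⟨hi, hj⟩ := hcon
  have hp1 : (1 : ℝ) < p := by exact_mod_cast hp.one_lt
  obtain ⟨hei, hti⟩ := one_coord hp hK (hg i) (hy i) (hy1 i) ht0 hi
  obtain ⟨hej, htj⟩ := one_coord hp hK (hg j) (hy j) (hy1 j) ht0 hj
  have hee : e i = e j := by
    rw [norm_pow] at hti htj
    exact pow_right_injective₀ ht0 ht1.ne (hti.trans htj.symm)
  have hmul : ∀ a b : K, ‖a‖ < 1 → ‖b‖ = 1 → ‖a * b‖ < 1 := by
    intro a b ha hb
    rw [norm_mul, hb, mul_one]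
    exact ha
  have hZ : ∀ u, ‖t ^ e u‖ = (p : ℝ)⁻¹ → ‖y u / t ^ e u + g u / p‖ ≤ 1 →
      ‖y u + g u * (t ^ e u / p)‖ < 1 := by
    intro u h1 h2
    have h3 : t ^ e u ≠ 0 := by
      intro h0
      rw [h0, norm_zero] at h1
      have : (0 : ℝ) < (p : ℝ)⁻¹ := inv_pos.mpr (by linarith)
      linarith
    have h4 : y u + g u * (t ^ e u / p) = t ^ e u * (y u / t ^ e u + g u / p) := by
      field_simp
    rw [h4, norm_mul, h1]
    calc (p : ℝ)⁻¹ * ‖y u / t ^ e u + g u / p‖ ≤ (p : ℝ)⁻¹ * 1 :=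
          mul_le_mul_of_nonneg_left h2 (inv_nonneg.mpr (by linarith))
      _ < 1 := by rw [mul_one]; exact inv_lt_one_of_one_lt₀ hp1
  have hZi := hZ i hti hi
  have hZj := hZ j htj hj
  rw [← hee] at hZj
  have h1 := hDi i j hij hei hee
  have h2 : A i 0 * g j - A j 0 * g i =
      (-(y i - A i 0)) * g j + (y j - A j 0) * g i +
        ((y i + g i * (t ^ e i / p)) * g j + (-(y j + g j * (t ^ e i / p))) * g i) := by
    ring
  have h3 : ‖A i 0 * g j - A j 0 * g i‖ < 1 := by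
    rw [h2]
    refine lt_of_le_of_lt (IsUltrametricDist.norm_add_le_max _ _) (max_lt ?_ ?_)
    · refine lt_of_le_of_lt (IsUltrametricDist.norm_add_le_max _ _) (max_lt ?_ ?_)
      · exact hmul _ _ (by rw [norm_neg]; exact hyA i) (hg j)
      · exact hmul _ _ (hyA j) (hg i)
    · refine lt_of_le_of_lt (IsUltrametricDist.norm_add_le_max _ _) (max_lt ?_ ?_)
      · exact hmul _ _ hZi (hg j)
      · exact hmul _ _ (by rw [norm_neg]; exact hZj) (hg i)
  rw [h1] at h3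
  exact lt_irrefl _ h3

end Pool.Agent.ZPK.H66
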