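import Pool.Agent.ZPK.StmtsR2
import Pool.Agent.Helper66_ZPK.LOG

/-!
Squad ZPK (MP_6e1a06_nt), row LOW: no solutions near the lower end.
-/

set_option autoImplicit false
set_option linter.unusedSectionVars false

namespace Pool.Agent.ZPK.H66

open Pool.Agent.ZPT Pool.Agent.ZP3

noncomputable section

section tools

variable {K : Type} [NormedField K] [CharZero K] [IsUltrametricDist K]

theorem pu_norm {u : K} (hu : ‖u - 1‖ < 1) : ‖u‖ = 1 := by
  have h : u = (u - 1) + 1 := by ring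
  have h1 : ‖u - 1‖ ≠ ‖(1 : K)‖ := by
    rw [norm_one]
    exact hu.ne
  rw [h, IsUltrametricDist.norm_add_eq_max_of_norm_ne_norm h1, norm_one, max_eq_right hu.le]

theorem pu_mul {u v : K} (hu : ‖u - 1‖ < 1) (hv : ‖v - 1‖ < 1) : ‖u * v - 1‖ < 1 := by
  have h : u * v - 1 = (u - 1) * v + (v - 1) := by ring
  rw [h]
  refine (IsUltrametricDist.norm_add_le_max _ _).trans_lt (max_lt ?_ hv)
  rw [norm_mul, pu_norm hv, mul_one]
  exact hu

theorem pu_pow {u : K} (hu : ‖u - 1‖ < 1) (n : ℕ) : ‖u ^ n - 1‖ < 1 := by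
  induction n with
  | zero => simp
  | succ n ih =>
    rw [pow_succ]
    exact pu_mul ih hu

theorem pu_inv {u : K} (hu : ‖u - 1‖ < 1) : ‖u⁻¹ - 1‖ < 1 := by
  have hn := pu_norm hu
  have h0 : u ≠ 0 := by
    intro h
    rw [h, norm_zero] at hn
    exact zero_ne_one hn
  have h : u⁻¹ - 1 = -(u - 1) * u⁻¹ := by
    field_simp
    ring
  rw [h, norm_mul, norm_neg, norm_inv, hn, inv_one, mul_one]
  exact hu

/-- The torsion class. -/
def Tc (x : K) : Prop := ∃ M : ℕ, 1 ≤ M ∧ ‖x ^ M - 1‖ < 1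

theorem Tc.mul {x y : K} (hx : Tc x) (hy : Tc y) : Tc (x * y) := by
  obtain ⟨M, hM, h⟩ := hx
  obtain ⟨N, hN, h'⟩ := hy
  refine ⟨M * N, Nat.mul_pos hM hN, ?_⟩
  have e : (x * y) ^ (M * N) = (x ^ M) ^ N * (y ^ N) ^ M := by
    rw [mul_pow, ← pow_mul, ← pow_mul, Nat.mul_comm N M]
  rw [e]
  exact pu_mul (pu_pow h N) (pu_pow h' M)

theorem Tc.pow {x : K} (hx : Tc x) (n : ℕ) : Tc (x ^ n) := by
  obtain ⟨M, hM, h⟩ := hx
  refine ⟨M, hM, ?_⟩
  rw [← pow_mul, mul_comm, pow_mul]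
  exact pu_pow h n

theorem Tc.inv {x : K} (hx : Tc x) : Tc x⁻¹ := by
  obtain ⟨M, hM, h⟩ := hx
  refine ⟨M, hM, ?_⟩
  rw [inv_pow]
  exact pu_inv h

theorem Tc.of_pu {x : K} (h : ‖x - 1‖ < 1) : Tc x := ⟨1, le_refl _, by rwa [pow_one]⟩

theorem Tc.of_uu {p : ℕ} (hp : p.Prime) {x : K} (h : Uu p x) : Tc x := by
  obtain ⟨⟨_, F, hF, hx⟩, h1⟩ := h
  have h2 : 2 ≤ p ^ F := hp.two_le.trans (Nat.le_self_pow (by omega) p)
  refine ⟨p ^ F - 1, by omega, ?_⟩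
  have e : x ^ (p ^ F) - x = (x ^ (p ^ F - 1) - 1) * x := by
    rw [sub_mul, one_mul, ← pow_succ, Nat.sub_add_cancel (by omega)]
  rw [e, norm_mul, h1, mul_one] at hx
  exact hx.trans_lt (inv_lt_one_of_one_lt₀ (by exact_mod_cast hp.one_lt))

/-- Differences of generic numbers. -/
theorem fi_diff {n : ℕ} {S : Set (Fin n)} {lam : Fin n → K} (h : FI S lam) {i k : Fin n}
    (hi : i ∈ S) (hk : k ∈ S) (hik : i ≠ k) : ‖lam i - lam k‖ = 1 := by
  have h1 := h (fun x => if x = i then 1 else if x = k then -1 else 0)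
    (fun x => if x = i then 1 else 0) (by
      intro x
      refine ⟨?_, ?_, ?_⟩
      · split_ifs <;> norm_num
      · split_ifs <;> norm_num
      · intro hx
        have hxi : x ≠ i := fun e => hx (e ▸ hi)
        have hxk : x ≠ k := fun e => hx (e ▸ hk)
        simp [hxi, hxk]) ⟨i, k, by simp [hik.symm]⟩ 0
  have e : ∑ x, (((if x = i then (1 : ℤ) else if x = k then -1 else 0) -
      0 * (if x = i then 1 else 0) : ℤ) : K) * lam x = lam i - lam k := by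
    have e2 : ∀ x, (((if x = i then (1 : ℤ) else if x = k then -1 else 0) -
        0 * (if x = i then 1 else 0) : ℤ) : K) * lam x =
        (if x = i then lam x else 0) - (if x = k then lam x else 0) := by
      intro x
      by_cases hxi : x = i
      · subst hxi
        simp [hik]
      · by_cases hxk : x = k
        · subst hxk
          simp [hxi]
        · simp [hxi, hxk]
    rw [Finset.sum_congr rfl fun x _ => e2 x, Finset.sum_sub_distrib, Finset.sum_ite_eq',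
      Finset.sum_ite_eq', if_pos (Finset.mem_univ _), if_pos (Finset.mem_univ _)]
  rw [e] at h1
  exact h1

end tools

/-- From a radius to the fraction. -/
theorem low_frac {P X : ℝ} (hP : 1 < P) (s : ℚ) (hX : X = P ^ (-(s : ℝ))) (hs : 0 < s) (e : ℕ)
    (he : 1 ≤ e) : ∃ A B : ℕ, 1 ≤ A ∧ (B : ℚ) = e * s * A ∧ Nat.Coprime A B ∧
      X ^ (e * A) = (P⁻¹) ^ B := by
  have hP0 : 0 < P := by linarith
  have hr : 0 < (e : ℚ) * s := mul_pos (by exact_mod_cast he) hs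
  set r : ℚ := (e : ℚ) * s with hrdef
  have hnum : 0 < r.num := Rat.num_pos.mpr hr
  have hB : ((r.num.natAbs : ℕ) : ℚ) = r * r.den := by
    rw [Rat.mul_den_eq_num]
    have h1 : ((r.num.natAbs : ℕ) : ℤ) = r.num := Int.natAbs_of_nonneg hnum.le
    rw [← h1]
    simp
  refine ⟨r.den, r.num.natAbs, r.den_pos, hB, r.reduced.symm, ?_⟩
  have hBr : ((r.num.natAbs : ℕ) : ℝ) = e * s * r.den := by
    have h2 : ((((r.num.natAbs : ℕ) : ℚ)) : ℝ) = (((e : ℚ) * s * r.den : ℚ) : ℝ) := by rw [hB]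
    push_cast at h2
    exact_mod_cast h2
  rw [hX, ← Real.rpow_natCast, ← Real.rpow_mul hP0.le, inv_pow, ← Real.rpow_natCast,
    ← Real.rpow_neg hP0.le, hBr]
  push_cast
  ring_nf

theorem low (urr : URRStmt) (thb : THBStmt) (_lgb : LgbStmt) (unv : UnvStmt) (num : NumStmt)
    (rnl : RnlStmt) (rpx : RpxStmt) (lgl : LglStmt) (thn : ThnStmt) (lwr : LwrStmt) (lwa : LwaStmt)
    (lwp : LwpStmt) : LowStmt := by
  intro U hU p E hp hE hpE K _ _ _ _ _ hK Log hLog L hL n e A g hCd heE hGen i j k l hik hjl hei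
    heik t q ht0 hLa hSj hSl hAt hD1 hD2
  by_contra hcon
  push Not at hcon
  -- numbers
  obtain ⟨X, hX⟩ : ∃ X : ℝ, X = ‖t‖ := ⟨_, rfl⟩
  obtain ⟨P, hPdef⟩ : ∃ P : ℝ, P = (p : ℝ) := ⟨_, rfl⟩
  have hp11 : 11 ≤ p := by nlinarith
  have hp5 : 5 ≤ p := by omega
  have hP1 : 1 < P := by rw [hPdef]; exact_mod_cast hp.one_lt
  have hP0 : 0 < P := by linarith
  have hPi0 : 0 < P⁻¹ := inv_pos.mpr hP0
  have hPi1 : P⁻¹ < 1 := inv_lt_one_of_one_lt₀ hP1
  have hpK : ‖(p : K)‖ = P⁻¹ := by rw [hPdef]; exact norm_p hp hK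
  have hp0 : (p : K) ≠ 0 := p_ne hp
  have heEp : ∀ x, e x < p := by
    intro x
    have h1 := heE x
    nlinarith
  have hX0 : 0 < X := by rw [hX]; exact ht0
  have hLa' : X ^ e i < P⁻¹ := by rw [hX, hPdef]; exact hLa
  have hX1 : X < 1 := by
    by_contra h
    push Not at h
    have h1 := one_le_pow₀ h (n := e i)
    linarith
  have hSj' : P⁻¹ < X ^ e j := by rw [hX, hPdef]; exact hSj
  have hSl' : P⁻¹ < X ^ e l := by rw [hX, hPdef]; exact hSl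
  have hejlt : e j < e i := (pow_lt_pow_iff_right_of_lt_one₀ hX0 hX1).mp (hLa'.trans hSj')
  have hellt : e l < e i := (pow_lt_pow_iff_right_of_lt_one₀ hX0 hX1).mp (hLa'.trans hSl')
  have hLak : La p (e k) t := by
    change ‖t‖ ^ e k < (p : ℝ)⁻¹
    rw [← hX, ← hPdef]
    exact (pow_le_pow_of_le_one hX0.le hX1.le heik).trans_lt hLa'
  obtain ⟨-, hth0, hth1, -, -⟩ := thb p hp hp5
  obtain ⟨hρ1, hρ0, hρ20, hnum⟩ := num p E hp hE hpE
  obtain ⟨hn1, hn2, -⟩ := hnum ‖t‖ (e i) ht0 (by rw [← hX]; exact hX1) hei (heE i)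
  generalize rh p E = ρ at *
  have hρ3 : ρ < th p ^ 3 := hρ20.trans_le (pow_le_pow_of_le_one hth0.le hth1.le (by norm_num))
  have hρ2 : ρ ≤ th p ^ 2 :=
    (hρ20.trans_le (pow_le_pow_of_le_one hth0.le hth1.le (by norm_num))).le
  have hρlt1 : ρ < 1 := hρ3.trans_le (pow_le_one₀ hth0.le hth1.le)
  have hwn : ‖t ^ e i / (p : K)‖ = X ^ e i * P := by
    rw [norm_div, norm_pow, hpK, ← hX, div_inv_eq_mul]
  have hw1 : ‖t ^ e i / (p : K)‖ < 1 := by
    rw [hwn]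
    calc X ^ e i * P < P⁻¹ * P := mul_lt_mul_of_pos_right hLa' hP0
      _ = 1 := inv_mul_cancel₀ hP0.ne'
  have hXρ : ‖t‖ ≤ ρ := hn1 hLa
  have hn2' := hn2 hLa (by
    rw [← hX, ← hPdef, ← hwn]
    exact hcon)
  rw [← hX, ← hPdef] at hn2'
  have hAi := hAt i (by simp)
  have hAj := hAt j (by simp)
  have hAk := hAt k (by simp)
  have hAl := hAt l (by simp)
  -- the radial pairs
  obtain ⟨s, hs⟩ := rpx U hU p hp hp5 K hK Log hLog L hL (e i) (e j) (A i) (A j) (g i) (g j) (hCd i)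
    (hCd j) hei t (q i) (q j) ht0 hLa hSj hAi hAj hD1
  obtain ⟨s', hs'⟩ := rpx U hU p hp hp5 K hK Log hLog L hL (e k) (e l) (A k) (A l) (g k) (g l)
    (hCd k) (hCd l) (hei.trans heik) t (q k) (q l) ht0 hLak hSl hAk hAl hD2
  have hss : s = s' := by
    have h1 := hs.tn
    have h2 := hs'.tn
    rw [h1, ← hPdef] at h2
    have h3 : (-(s : ℝ)) = (-(s' : ℝ)) := by
      rcases lt_trichotomy (-(s : ℝ)) (-(s' : ℝ)) with h | h | h
      · exact absurd h2 ((Real.rpow_lt_rpow_left_iff hP1).mpr h).ne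
      · exact h
      · exact absurd h2 ((Real.rpow_lt_rpow_left_iff hP1).mpr h).ne'
    have h4 : (s : ℝ) = (s' : ℝ) := neg_injective h3
    exact_mod_cast h4
  subst hss
  -- the expansions of the large coordinates
  obtain ⟨-, -, hFi, -⟩ := rnl U hU p hp hp5 K hK L (e i) (e i) (A i) (g i) (hCd i) hei le_rfl t
    (q i) ht0 hLa hAi
  obtain ⟨-, -, hFk, -⟩ := rnl U hU p hp hp5 K hK L (e i) (e k) (A k) (g k) (hCd k) hei heik t
    (q k) ht0 hLa hAk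
  have hA0 : ∀ x, 1 ≤ e x → ‖A x 0‖ = 1 := fun x hx => (hCd x).A0 hx
  have hslope : ∀ x, 1 ≤ e x → g x / A x 0 ∈ L ∧ ‖g x / A x 0‖ = 1 := by
    intro x hx
    refine ⟨L.div_mem (hCd x).gL ((hCd x).An 0), ?_⟩
    rw [norm_div, (hCd x).g1, hA0 x hx, div_one]
  have hUr : ∀ x ∈ L, ‖x‖ ≤ 1 → Ur p x := (unv p hp K hK L hL).1
  have hl1L : lL (e i) (e i) (A i) (g i) ∈ L ∧ ‖lL (e i) (e i) (A i) (g i)‖ = 1 := by
    unfold lL
    rw [if_pos rfl]
    exact hslope i hei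
  have hl2L : lL (e i) (e k) (A k) (g k) ∈ L ∧ ‖lL (e i) (e k) (A k) (g k)‖ ≤ 1 := by
    unfold lL
    split_ifs
    · exact ⟨(hslope k (hei.trans heik)).1, (hslope k (hei.trans heik)).2.le⟩
    · exact ⟨L.zero_mem, by rw [norm_zero]; exact zero_le_one⟩
  have hl12 : ‖lL (e i) (e i) (A i) (g i) - lL (e i) (e k) (A k) (g k)‖ = 1 := by
    unfold lL
    rw [if_pos rfl]
    split_ifs with h
    · exact fi_diff (hGen.infty (e i) hei) (i := i) (k := k) rfl h hik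
    · rw [sub_zero]
      exact (hslope i hei).2
  have hl2or : e k = e i ∨ lL (e i) (e k) (A k) (g k) = 0 := by
    by_cases h : e k = e i
    · exact Or.inl h
    · right
      unfold lL
      rw [if_neg h]
  generalize lL (e i) (e i) (A i) (g i) = l₁ at *
  generalize lL (e i) (e k) (A k) (g k) = l₂ at *
  -- the small coordinates
  obtain ⟨e', he'⟩ : ∃ e' : ℕ, e' = max (e j) (e l) := ⟨_, rfl⟩
  have he'i : e' < e i := by
    rw [he']
    exact max_lt hejlt hellt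
  have hSe' : P⁻¹ < X ^ e' := by
    rcases max_choice (e j) (e l) with h | h
    · rw [he', h]
      exact hSj'
    · rw [he', h]
      exact hSl'
  have hSmall : Sm p e' t := by
    change (p : ℝ)⁻¹ < ‖t‖ ^ e'
    rw [← hX, ← hPdef]
    exact hSe'
  have hpte : ‖(p : K) / t ^ e'‖ = P⁻¹ / X ^ e' := by
    rw [norm_div, norm_pow, hpK, ← hX]
  have hpteρ : ‖(p : K) / t ^ e'‖ ≤ ρ := by
    rw [hpte]
    exact hn2' e' he'i
  obtain ⟨δ, hδ1, hδ2, hδ3⟩ := thn U hU p hp hp5 K hK Log hLog L hL e' (e j) (e l) (A j) (A l)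
    (g j) (g l) (hCd j) (hCd l) he' (by
      intro h1
      unfold lS
      by_cases hj : e j = e'
      · by_cases hl : e l = e'
        · rw [if_pos hj, if_pos hl]
          exact fi_diff (hGen.zero e' h1) (i := j) (k := l) hj hl hjl
        · rw [if_pos hj, if_neg hl, sub_zero, norm_div, (hCd j).g1, (hCd j).A0 (by omega), div_one]
      · have hl : e l = e' := by
          rcases max_choice (e j) (e l) with h | h
          · exact absurd (h.symm.trans he'.symm) hj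
          · rw [he', h]
        rw [if_neg hj, if_pos hl, zero_sub, norm_neg, norm_div, (hCd l).g1,
          (hCd l).A0 (by omega), div_one]) (by
      intro h0
      have hj0 : e j = 0 := by
        have := le_max_left (e j) (e l)
        omega
      have hl0 : e l = 0 := by
        have := le_max_right (e j) (e l)
        omega
      have h1 := (hGen.sq j l hjl hj0 hl0).1
      rw [norm_div, hpK, div_eq_iff hPi0.ne', one_mul] at h1
      rw [h1, hPdef])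
  obtain ⟨hΨj, hΨ, hΘ⟩ := hδ3 t (q j) (q l) ht0 (by rw [← hX]; exact hX1) hSmall
    (hpteρ.trans hρ2) hAj hAl
  have hXe'0 : 0 < X ^ e' := pow_pos hX0 _
  have hδt : ‖δ / t ^ e'‖ = P⁻¹ / X ^ e' := by
    rw [norm_div, hδ1, norm_pow, ← hX, hPdef]
  have hmaxρ : max ‖t‖ ‖(p : K) / t ^ e'‖ ≤ ρ := max_le hXρ hpteρ
  obtain ⟨Θ, hΘdef⟩ : ∃ Θ : K, Θ = Log ((p : K) * (q j)⁻¹) - Log ((p : K) * (q l)⁻¹) := ⟨_, rfl⟩
  rw [← hΘdef] at hΘ
  have hΘn : ‖Θ‖ = P⁻¹ / X ^ e' := by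
    have h0 : 0 < ‖δ / t ^ e'‖ := by
      rw [hδt]
      exact div_pos hPi0 hXe'0
    have h1 : ‖Θ - δ / t ^ e'‖ < ‖δ / t ^ e'‖ := by
      refine hΘ.trans_lt ?_
      calc max ‖t‖ ‖(p : K) / t ^ e'‖ * ‖δ / t ^ e'‖ ≤ ρ * ‖δ / t ^ e'‖ :=
            mul_le_mul_of_nonneg_right hmaxρ h0.le
        _ < 1 * ‖δ / t ^ e'‖ := mul_lt_mul_of_pos_right hρlt1 h0
        _ = ‖δ / t ^ e'‖ := one_mul _
    have h2 : Θ = (Θ - δ / t ^ e') + δ / t ^ e' := by ring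
    rw [h2, IsUltrametricDist.norm_add_eq_max_of_norm_ne_norm h1.ne, max_eq_right h1.le, hδt]
  -- the fraction
  have hXs : X = P ^ (-(s : ℝ)) := by
    rw [hX, hPdef]
    exact hs.tn
  obtain ⟨a, b, ha1, hb, hcop, hXa⟩ := low_frac hP1 s hXs hs.s0 (e i) hei
  have hab : a < b := by
    have h1 : (P⁻¹) ^ b < (P⁻¹) ^ a := by
      rw [← hXa, pow_mul]
      exact pow_lt_pow_left₀ hLa' (pow_nonneg hX0.le _) (by omega)
    exact (pow_lt_pow_iff_right_of_lt_one₀ hPi0 hPi1).mp h1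
  have heia : e i * a ≠ 0 := by
    have : 0 < e i * a := Nat.mul_pos hei ha1
    omega
  have hXea : (X ^ e') ^ (e i * a) = (P⁻¹) ^ (e' * b) := by
    rw [← pow_mul, mul_comm e', pow_mul, hXa, ← pow_mul, mul_comm b]
  have he'b : e' * b < e i * a := by
    have h1 : (P⁻¹) ^ (e i * a) < (P⁻¹) ^ (e' * b) := by
      rw [← hXea]
      exact pow_lt_pow_left₀ hSe' hPi0.le heia
    exact (pow_lt_pow_iff_right_of_lt_one₀ hPi0 hPi1).mp h1
  have hUuA : ∀ x, 1 ≤ e x → Uu p (A x 0) := fun x hx =>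
    ⟨hUr _ ((hCd x).An 0) (hA0 x hx).le, hA0 x hx⟩
  obtain ⟨w, hw⟩ : ∃ w : K, w = t ^ e i / (p : K) := ⟨_, rfl⟩
  rw [← hw] at hcon hwn hw1 hFi hFk
  obtain ⟨y, hy⟩ : ∃ y : K, y = (l₁ - l₂) * w / (1 + l₂ * w) := ⟨_, rfl⟩
  obtain ⟨hyw, hr1, hr2⟩ := lwr p hp hp11 K hK Log hLog s (e i) (e k) a b t w y (A i 0) (A k 0)
    (t ^ e i * (q i)⁻¹ / A i 0) (t ^ e k * (q k)⁻¹ / A k 0) ((p : K) * (q j)⁻¹)
    ((p : K) * (q l)⁻¹) l₁ l₂ ρ hei heik (heEp k) hl2or (hUuA i hei) (hUuA k (hei.trans heik))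
    (hUr _ hl1L.1 hl1L.2.le) (hUr _ hl2L.1 hl2L.2) hl12 hρ1 hρ3 hw hcon hw1 (hFi.trans hXρ)
    (hFk.trans hXρ) hs.lg hs'.lg ha1 hb hy
  rw [← hΘdef] at hr1
  have hya : ‖y‖ ^ a = ((p : ℝ)⁻¹) ^ (b - a) := by
    obtain ⟨c, hc⟩ : ∃ c, b = c + a := ⟨b - a, by omega⟩
    rw [hyw, hwn, mul_pow, ← pow_mul, hXa, ← hPdef, hc, Nat.add_sub_cancel, pow_add, mul_assoc,
      ← mul_pow, inv_mul_cancel₀ hP0.ne', one_pow, mul_one]
  have hΘρ : ‖Θ‖ ≤ ρ := by
    rw [hΘn]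
    exact hn2' e' he'i
  have hΘa : ‖Θ‖ ^ (e i * a) = ((p : ℝ)⁻¹) ^ (e i * a - e' * b) := by
    rw [hΘn, div_pow, hXea, ← hPdef, pow_sub₀ _ hPi0.ne' he'b.le, div_eq_mul_inv]
  obtain ⟨he'0, k', hk', hak, hbk⟩ := lwa p hp hp11 K hK Log hLog a b (e i) e' y Θ
    (Log ((p : K) * (q l)⁻¹)) ρ ha1 hab hcop he'i (heEp i) he'b (by rw [hyw]; exact hcon)
    (by rw [hyw]; exact hw1) hya hρ1 hρ3 hΘρ (hΨ.trans hpteρ) hΘa hr1 hr2
  subst he'0
  subst hak
  subst hbk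
  -- the logarithm is close to an element of `L`
  have hu1 : ‖((PowerSeries.coeff 1 U : ℚ) : K)‖ ≤ 1 := by
    rw [hK]
    exact_mod_cast hU.pint p hp hp5 1
  have huL : ((PowerSeries.coeff 1 U : ℚ) : K) ∈ L := SubfieldClass.ratCast_mem L _
  have hpL : (p : K) ∈ L := natCast_mem L p
  have hNL : ∀ x, g x + p * (A x 0 - ((PowerSeries.coeff 1 U : ℚ) : K)) ∈ L := fun x =>
    L.add_mem (hCd x).gL (L.mul_mem hpL (L.sub_mem ((hCd x).An 0) huL))
  have hN1 : ∀ x, ‖g x + p * (A x 0 - ((PowerSeries.coeff 1 U : ℚ) : K))‖ = 1 := by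
    intro x
    have h1 : ‖(p : K) * (A x 0 - ((PowerSeries.coeff 1 U : ℚ) : K))‖ < 1 := by
      have h2 : ‖A x 0 - ((PowerSeries.coeff 1 U : ℚ) : K)‖ ≤ 1 := by
        rw [sub_eq_add_neg]
        refine (IsUltrametricDist.norm_add_le_max _ _).trans (max_le ((hCd x).An1 0) ?_)
        rw [norm_neg]
        exact hu1
      rw [norm_mul, hpK]
      calc P⁻¹ * ‖A x 0 - ((PowerSeries.coeff 1 U : ℚ) : K)‖ ≤ P⁻¹ * 1 :=
            mul_le_mul_of_nonneg_left h2 hPi0.le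
        _ < 1 := by rw [mul_one]; exact hPi1
    have h3 : ‖g x‖ ≠ ‖(p : K) * (A x 0 - ((PowerSeries.coeff 1 U : ℚ) : K))‖ := by
      rw [(hCd x).g1]
      exact h1.ne'
    rw [IsUltrametricDist.norm_add_eq_max_of_norm_ne_norm h3, (hCd x).g1, max_eq_left h1.le]
  have hPi2 : 0 < P⁻¹ * P⁻¹ := mul_pos hPi0 hPi0
  obtain ⟨xj, hxjL, hxj⟩ := (lgl p hp hp5 K hK Log hLog L hL).1 _ (hNL j) (hN1 j) (P⁻¹ * P⁻¹) hPi2
  obtain ⟨xl, hxlL, hxl⟩ := (lgl p hp hp5 K hK Log hLog L hL).1 _ (hNL l) (hN1 l) (P⁻¹ * P⁻¹) hPi2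
  have hδe := hδ2 rfl
  have hδθ : ‖δ - (xj - xl)‖ ≤ P⁻¹ * P⁻¹ := by
    have h1 : δ - (xj - xl) =
        (Log (g j + p * (A j 0 - ((PowerSeries.coeff 1 U : ℚ) : K))) - xj) +
        -(Log (g l + p * (A l 0 - ((PowerSeries.coeff 1 U : ℚ) : K))) - xl) := by
      rw [hδe]
      ring
    rw [h1]
    refine (IsUltrametricDist.norm_add_le_max _ _).trans (max_le hxj ?_)
    rw [norm_neg]
    exact hxl
  have hθn : ‖xj - xl‖ = (p : ℝ)⁻¹ := by
    have h1 : xj - xl = -(δ - (xj - xl)) + δ := by ring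
    have h2 : ‖-(δ - (xj - xl))‖ < ‖δ‖ := by
      rw [norm_neg, hδ1, ← hPdef]
      refine hδθ.trans_lt ?_
      calc P⁻¹ * P⁻¹ < P⁻¹ * 1 := mul_lt_mul_of_pos_left hPi1 hPi0
        _ = P⁻¹ := mul_one _
    rw [h1, IsUltrametricDist.norm_add_eq_max_of_norm_ne_norm h2.ne, max_eq_right h2.le, hδ1]
  have hΘθ : ‖Θ - (xj - xl)‖ ≤ ρ * (p : ℝ)⁻¹ := by
    have h1 : Θ - (xj - xl) = (Θ - δ) + (δ - (xj - xl)) := by ring
    rw [h1]
    refine (IsUltrametricDist.norm_add_le_max _ _).trans (max_le ?_ ?_)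
    · rw [pow_zero, div_one, div_one, hδ1] at hΘ
      refine hΘ.trans (mul_le_mul_of_nonneg_right ?_ (by rw [← hPdef]; exact hPi0.le))
      rw [pow_zero, div_one] at hmaxρ
      exact hmaxρ
    · refine hδθ.trans ?_
      rw [← hPdef]
      exact mul_le_mul_of_nonneg_right (by rw [hPdef]; exact hρ1) hPi0.le
  have hΨ' : ‖Log ((p : K) * (q l)⁻¹)‖ ≤ (p : ℝ)⁻¹ := by
    rw [pow_zero, div_one, hpK, hPdef] at hΨ
    exact hΨ
  have hyk : ‖y‖ ^ (p ^ k') = (p : ℝ)⁻¹ := by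
    rw [hya]
    have h1 : p ^ k' + 1 - p ^ k' = 1 := by omega
    rw [h1, pow_one]
  -- the torsion class
  have htc : Tc (y ^ (p ^ k') / (p : K)) := by
    have h1 : Tc (t ^ (e i * p ^ k') / (p : K) ^ (p ^ k' + 1)) := by
      refine hs.tc (e i * p ^ k') (p ^ k' + 1) (Nat.mul_pos hei ha1) ?_
      rw [hb]
      push_cast
      ring
    have h2 : Tc (l₁ - l₂) := by
      refine Tc.of_uu hp ⟨?_, hl12⟩
      exact ((urr p hp K hK).1 l₁ l₂ (hUr _ hl1L.1 hl1L.2.le) (hUr _ hl2L.1 hl2L.2)).2.2.2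
    have h3 : Tc (1 + l₂ * w) := by
      refine Tc.of_pu ?_
      rw [add_sub_cancel_left, norm_mul]
      exact (mul_le_of_le_one_left (norm_nonneg _) hl2L.2).trans_lt hw1
    have h4 : y ^ (p ^ k') / (p : K) = (l₁ - l₂) ^ (p ^ k') * ((1 + l₂ * w)⁻¹) ^ (p ^ k') *
        (t ^ (e i * p ^ k') / (p : K) ^ (p ^ k' + 1)) := by
      rw [hy, hw, div_pow, mul_pow, div_pow, inv_pow, pow_succ, pow_mul, ← hw]
      generalize (1 + l₂ * w) ^ p ^ k' = c1
      generalize (l₁ - l₂) ^ p ^ k' = c2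
      generalize (t ^ e i) ^ p ^ k' = c3
      generalize (p : K) ^ p ^ k' = c4
      rw [div_eq_mul_inv, div_eq_mul_inv, div_eq_mul_inv, div_eq_mul_inv, mul_inv]
      ring
    rw [h4]
    exact ((h2.pow _).mul (h3.inv.pow _)).mul h1
  exact lwp p hp hp11 K hK Log hLog L hL k' y Θ (xj - xl) (Log ((p : K) * (q l)⁻¹)) ρ hk' hyk
    (L.sub_mem hxjL hxlL) hθn hρ1 hρ3 hΘθ hΨ' hr1 hr2 htc

end

end Pool.Agent.ZPK.H66
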