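import Pool.Agent.ZPK.StmtsR

/-!
Squad ZPK (MP_6e1a06_nt), row NUM: real numbers.
-/

set_option autoImplicit false

namespace Pool.Agent.ZPK.H66

open Pool.Agent.ZPT Pool.Agent.ZP3

theorem num : NumStmt := by
  intro p E _ hE hpE
  have hPE : (1000 : ℝ) * ((E : ℝ) + 1) ^ 2 < (p : ℝ) := by exact_mod_cast hpE
  have hE1 : (1 : ℝ) ≤ (E : ℝ) := by exact_mod_cast hE
  have hth : th p = (p : ℝ) ^ (-(1 : ℝ) / ((p : ℝ) - 1)) := rfl
  have hrh : rh p E = (p : ℝ) ^ (-(1 : ℝ) / (2 * (E : ℝ))) := rfl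
  rw [hth, hrh]
  generalize (p : ℝ) = P at *
  have hP1 : 1 < P := by nlinarith
  have hP0 : 0 < P := by linarith
  have hE0 : (0 : ℝ) < E := by linarith
  obtain ⟨d, hd⟩ : ∃ d : ℝ, d = 1 / (P - 1) := ⟨_, rfl⟩
  have hd0 : 0 < d := by
    rw [hd]
    exact one_div_pos.mpr (by linarith)
  have hdP : d * (P - 1) = 1 := by
    rw [hd]
    exact one_div_mul_cancel (by linarith)
  have hEd : (E : ℝ) * d < 1 / 100 := by
    have h1 : (100 : ℝ) * E < P - 1 := by nlinarith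
    have h2 : d * (100 * E) < d * (P - 1) := mul_lt_mul_of_pos_left h1 hd0
    linarith
  have hd1 : d < 1 / 100 := by nlinarith
  obtain ⟨r, hr⟩ : ∃ r : ℝ, r = 1 / (2 * (E : ℝ)) := ⟨_, rfl⟩
  have hrE : r * (2 * (E : ℝ)) = 1 := by
    rw [hr]
    exact one_div_mul_cancel (by positivity)
  have hr0 : 0 < r := by
    rw [hr]
    positivity
  have hr1 : r ≤ 1 / 2 := by nlinarith
  have e1 : -(1 : ℝ) / (P - 1) = -d := by rw [hd]; ring
  have e2 : -(1 : ℝ) / (2 * (E : ℝ)) = -r := by rw [hr]; ring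
  rw [e1, e2]
  have hinv : P⁻¹ = P ^ (-(1 : ℝ)) := by rw [Real.rpow_neg_one]
  have hpow : ∀ (a : ℝ) (n : ℕ), (P ^ a) ^ n = P ^ (a * n) := fun a n => by
    rw [← Real.rpow_natCast, ← Real.rpow_mul hP0.le]
  -- `d < r / 20`
  have hdr : 40 * d < r := by
    have h1 : (E : ℝ) * (40 * d) < E * r := by nlinarith
    exact lt_of_mul_lt_mul_left h1 hE0.le
  refine ⟨?_, Real.rpow_pos_of_pos hP0 _, ?_, ?_⟩
  · rw [hinv, Real.rpow_le_rpow_left_iff hP1]
    linarith
  · rw [hpow, Real.rpow_lt_rpow_left_iff hP1]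
    push_cast
    linarith
  · intro x e hx0 hx1 he1 heE
    obtain ⟨y, hy⟩ : ∃ y : ℝ, x = P ^ y := ⟨Real.logb P x, (Real.rpow_logb hP0 hP1.ne' hx0).symm⟩
    subst hy
    have hy0 : y < 0 := by
      by_contra h
      push Not at h
      exact absurd hx1 (not_lt.mpr (Real.one_le_rpow hP1.le h))
    have he1' : (1 : ℝ) ≤ (e : ℝ) := by exact_mod_cast he1
    have heE' : (e : ℝ) ≤ (E : ℝ) := by exact_mod_cast heE
    have hEy : (E : ℝ) * y ≤ e * y := mul_le_mul_of_nonpos_right heE' hy0.le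
    have hdiv : ∀ a b : ℝ, P ^ a / P ^ b = P ^ (a - b) := fun a b => (Real.rpow_sub hP0 a b).symm
    have hmulP : ∀ a : ℝ, P ^ a * P = P ^ (a + 1) := fun a => by
      rw [Real.rpow_add hP0, Real.rpow_one]
    -- from `E y ≤ -1/2` to `y ≤ -r`
    have hkey : ∀ z : ℝ, (E : ℝ) * z ≤ -(1 / 2) → z ≤ -r := by
      intro z hz
      have h1 : (E : ℝ) * z ≤ E * (-r) := by nlinarith
      exact le_of_mul_le_mul_left h1 hE0
    refine ⟨?_, ?_, ?_⟩
    · intro h
      rw [hpow, hinv, Real.rpow_lt_rpow_left_iff hP1] at h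
      rw [Real.rpow_le_rpow_left_iff hP1]
      exact hkey y (by linarith)
    · intro h0 h e' he'
      rw [hpow, hinv, Real.rpow_lt_rpow_left_iff hP1] at h0
      rw [hpow, hpow, hmulP, Real.rpow_le_rpow_left_iff hP1] at h
      rw [hpow, hinv, hdiv, Real.rpow_le_rpow_left_iff hP1]
      push_cast at h
      have he'1 : (e' : ℝ) + 1 ≤ e := by exact_mod_cast he'
      have h1 : -((e' : ℝ) * y) ≤ -(((e : ℝ) - 1) * y) := by
        have h2 : ((e : ℝ) - 1) * y ≤ e' * y := mul_le_mul_of_nonpos_right (by linarith) hy0.le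
        linarith
      -- `-1 - e' y ≤ -1 - (e - 1) y = -1 - e y + y ≤ 2 d + y`, `y ≤ -r - ...`
      have h3 : -1 - y * e' ≤ d * 2 + y := by nlinarith
      have h4 : y ≤ -(2 * r) := by
        have h5 : (E : ℝ) * y ≤ E * (-(2 * r)) := by nlinarith
        exact le_of_mul_le_mul_left h5 hE0
      linarith
    · intro h
      rw [hpow, hpow, hinv, hdiv, Real.rpow_le_rpow_left_iff hP1] at h
      push_cast at h
      refine ⟨?_, ?_⟩
      · rw [Real.rpow_le_rpow_left_iff hP1]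
        exact hkey y (by linarith)
      · intro e' he'
        rw [hpow, hmulP, Real.rpow_le_rpow_left_iff hP1]
        have he'1 : (e : ℝ) + 1 ≤ e' := by exact_mod_cast he'
        have h2 : (e' : ℝ) * y ≤ ((e : ℝ) + 1) * y := mul_le_mul_of_nonpos_right he'1 hy0.le
        have h3 : y * e' + 1 ≤ d * 2 + y := by nlinarith
        have h4 : y ≤ -(2 * r * (1 - 2 * d)) := by
          have h5 : (E : ℝ) * y ≤ E * (-(2 * r * (1 - 2 * d))) := by nlinarith
          exact le_of_mul_le_mul_left h5 hE0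
        have h6 : r * d ≤ r * (1 / 100) := mul_le_mul_of_nonneg_left hd1.le hr0.le
        nlinarith

end Pool.Agent.ZPK.H66
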